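import Pool.Agent.H.MP_1fc8c4_an.C

set_option autoImplicit false

open MeasureTheory Set Filter Topology Metric
open Pool.Agent.H.MP_1fc8c4_an

namespace Pool.Agent.H.MP_36a5e2_an

structure Star (g : E → E) (Φ : ℝ → E → E) : Prop where
  an : AnalyticOnNhd ℂ g (ball 0 1)
  inj : InjOn g (ball 0 1)
  zero : g 0 = 0
  der : HasFDerivAt g (ContinuousLinearMap.id ℂ E) 0
  anF : ∀ t, 0 ≤ t → AnalyticOnNhd ℂ (Φ t) (ball 0 1)
  maps : ∀ t, 0 ≤ t → MapsTo (Φ t) (ball 0 1) (ball 0 1)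
  eq : ∀ t, 0 ≤ t → ∀ z ∈ ball (0:E) 1, g (Φ t z) = (Real.exp (-t) : ℂ) • g z

lemma z0 : (0:E) ∈ ball (0:E) 1 := mem_ball_self one_pos

lemma exp_ne (t : ℝ) : (Real.exp t : ℂ) ≠ 0 := by exact_mod_cast (Real.exp_pos t).ne'

namespace Star
variable {g : E → E} {Φ : ℝ → E → E}

lemma F0 (h : Star g Φ) {t : ℝ} (ht : 0 ≤ t) : Φ t 0 = 0 :=
  h.inj (h.maps t ht z0) z0 (by rw [h.eq t ht 0 z0, h.zero, smul_zero])

lemma init (h : Star g Φ) {z : E} (hz : z ∈ ball (0:E) 1) : Φ 0 z = z :=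
  h.inj (h.maps 0 le_rfl hz) hz (by rw [h.eq 0 le_rfl z hz]; simp)

lemma semi (h : Star g Φ) {a b : ℝ} (ha : 0 ≤ a) (hb : 0 ≤ b) {z : E} (hz : z ∈ ball (0:E) 1) :
    Φ a (Φ b z) = Φ (a + b) z := by
  refine h.inj (h.maps a ha (h.maps b hb hz)) (h.maps _ (add_nonneg ha hb) hz) ?_
  rw [h.eq a ha _ (h.maps b hb hz), h.eq b hb z hz, h.eq _ (add_nonneg ha hb) z hz, smul_smul,
    ← Complex.ofReal_mul, ← Real.exp_add, neg_add]

lemma injF (h : Star g Φ) {t : ℝ} (ht : 0 ≤ t) : InjOn (Φ t) (ball 0 1) := by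
  intro x hx y hy hxy
  have h1 := congrArg g hxy
  rw [h.eq t ht x hx, h.eq t ht y hy] at h1
  exact h.inj hx hy (smul_right_injective E (exp_ne _) h1)

lemma derF (h : Star g Φ) {t : ℝ} (ht : 0 ≤ t) :
    HasFDerivAt (Φ t) ((Real.exp (-t) : ℂ) • ContinuousLinearMap.id ℂ E) 0 := by
  have h1 := (h.anF t ht 0 z0).differentiableAt.hasFDerivAt
  have h2 : HasFDerivAt g (ContinuousLinearMap.id ℂ E) (Φ t 0) := by rw [h.F0 ht]; exact h.der
  have h3 := h2.comp 0 h1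
  have h4 : HasFDerivAt (g ∘ Φ t) ((Real.exp (-t) : ℂ) • ContinuousLinearMap.id ℂ E) 0 := by
    refine (h.der.const_smul (Real.exp (-t) : ℂ)).congr_of_eventuallyEq ?_
    filter_upwards [ball_mem_nhds (0:E) one_pos] with z hz
    exact h.eq t ht z hz
  have h5 := h3.unique h4
  rw [ContinuousLinearMap.id_comp] at h5
  rwa [h5] at h1

lemma normF (h : Star g Φ) {t : ℝ} (ht : 0 ≤ t) {z : E} (hz : ‖z‖ < 1) : ‖Φ t z‖ ≤ ‖z‖ :=
  Complex.norm_le_norm_of_mapsTo_ball (h.anF t ht).differentiableOn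
    ((h.maps t ht).mono_right ball_subset_closedBall) (h.F0 ht) hz

lemma conj (h : Star g Φ) (A B : E →L[ℂ] E) (hAB : ∀ z, A (B z) = z) (hBA : ∀ z, B (A z) = z)
    (hA : ∀ z, ‖A z‖ = ‖z‖) (hB : ∀ z, ‖B z‖ = ‖z‖) :
    Star (fun z => B (g (A z))) (fun t z => B (Φ t (A z))) := by
  have mA : ∀ z ∈ ball (0:E) 1, A z ∈ ball (0:E) 1 := fun z hz => by
    rw [mem_ball_zero_iff] at hz ⊢; rwa [hA]
  have mB : ∀ z ∈ ball (0:E) 1, B z ∈ ball (0:E) 1 := fun z hz => by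
    rw [mem_ball_zero_iff] at hz ⊢; rwa [hB]
  have an : ∀ k : E → E, AnalyticOnNhd ℂ k (ball 0 1) →
      AnalyticOnNhd ℂ (fun z => B (k (A z))) (ball 0 1) := fun k hk z hz =>
    (B.analyticAt _).comp ((hk _ (mA z hz)).comp (A.analyticAt z))
  refine ⟨an g h.an, fun x hx y hy hxy => ?_, by simp [h.zero], ?_, fun t ht => an _ (h.anF t ht),
    fun t ht z hz => mB _ (h.maps t ht (mA z hz)), fun t ht z hz => ?_⟩
  · have h1 := congrArg A hxy
    simp only [hAB] at h1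
    have h2 := congrArg B (h.inj (mA x hx) (mA y hy) h1)
    simpa only [hBA] using h2
  · have h1 : HasFDerivAt g (ContinuousLinearMap.id ℂ E) (A 0) := by rw [map_zero]; exact h.der
    have h2 := B.hasFDerivAt.comp 0 (h1.comp 0 A.hasFDerivAt)
    refine HasFDerivAt.congr_fderiv (f := fun z => B (g (A z))) h2 ?_
    ext1 z
    simp [hBA]
  · rw [hAB, h.eq t ht _ (mA z hz), map_smul]

end Star

noncomputable def Ch (g2 : E → E) (Φ1 : ℝ → E → E) (T t : ℝ) (z : E) : E :=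
  if t ≤ T then (Real.exp T : ℂ) • g2 (Φ1 (T - t) z) else (Real.exp t : ℂ) • g2 z

lemma esm (a b c : ℝ) (h : a + -b = c) (x : E) :
    (Real.exp a : ℂ) • (Real.exp (-b) : ℂ) • x = (Real.exp c : ℂ) • x := by
  rw [smul_smul, ← Complex.ofReal_mul, ← Real.exp_add, h]

lemma chain {g1 g2 : E → E} {Φ1 Φ2 : ℝ → E → E} (h1 : Star g1 Φ1) (h2 : Star g2 Φ2) (T : ℝ)
    (hT : 0 ≤ T) :
    (∀ t : ℝ, 0 ≤ t →
      DifferentiableOn ℂ (Ch g2 Φ1 T t) (Metric.ball (0 : E) 1) ∧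
      Set.InjOn (Ch g2 Φ1 T t) (Metric.ball (0 : E) 1) ∧
      Ch g2 Φ1 T t 0 = 0 ∧
      fderiv ℂ (Ch g2 Φ1 T t) 0 = ((Real.exp t : ℝ) : ℂ) • ContinuousLinearMap.id ℂ E) ∧
    (∀ s t : ℝ, 0 ≤ s → s ≤ t →
      Ch g2 Φ1 T s '' Metric.ball (0 : E) 1 ⊆ Ch g2 Φ1 T t '' Metric.ball (0 : E) 1) ∧
    (∀ r : ℝ, r < 1 → ∃ C : ℝ, ∀ t : ℝ, 0 ≤ t →
      ∀ z : E, ‖z‖ ≤ r → ‖Ch g2 Φ1 T t z‖ ≤ C * Real.exp t) := by
  refine ⟨fun t ht => ?_, fun s t hs hst => ?_, fun r hr => ?_⟩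
  · by_cases htT : t ≤ T
    · have e : Ch g2 Φ1 T t = fun z => (Real.exp T : ℂ) • g2 (Φ1 (T - t) z) := by
        funext z; simp only [Ch, if_pos htT]
      have hp : 0 ≤ T - t := by linarith
      rw [e]
      refine ⟨(h2.an.differentiableOn.comp (h1.anF _ hp).differentiableOn
        (h1.maps _ hp)).const_smul (Real.exp T : ℂ), fun x hx y hy hxy => ?_, by simp [h1.F0 hp, h2.zero], ?_⟩
      · exact h1.injF hp hx hy (h2.inj (h1.maps _ hp hx) (h1.maps _ hp hy)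
          (smul_right_injective E (exp_ne _) hxy))
      · have a1 : HasFDerivAt g2 (ContinuousLinearMap.id ℂ E) (Φ1 (T - t) 0) := by
          rw [h1.F0 hp]; exact h2.der
        have a2 := (a1.comp 0 (h1.derF hp)).const_smul (Real.exp T : ℂ)
        have a3 : HasFDerivAt (fun z => (Real.exp T : ℂ) • g2 (Φ1 (T - t) z)) _ 0 := a2
        rw [a3.fderiv, ContinuousLinearMap.id_comp, smul_smul, ← Complex.ofReal_mul,
          ← Real.exp_add]
        congr 3; ring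
    · have e : Ch g2 Φ1 T t = fun z => (Real.exp t : ℂ) • g2 z := by
        funext z; simp only [Ch, if_neg htT]
      rw [e]
      refine ⟨h2.an.differentiableOn.const_smul (Real.exp t : ℂ), fun x hx y hy hxy =>
        h2.inj hx hy (smul_right_injective E (exp_ne _) hxy), by simp [h2.zero], ?_⟩
      have a3 : HasFDerivAt (fun z => (Real.exp t : ℂ) • g2 z) _ 0 :=
        h2.der.const_smul (Real.exp t : ℂ)
      rw [a3.fderiv]
  · rintro _ ⟨z, hz, rfl⟩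
    have hd : 0 ≤ t - s := by linarith
    by_cases htT : t ≤ T
    · refine ⟨Φ1 (t - s) z, h1.maps _ hd hz, ?_⟩
      simp only [Ch, if_pos htT, if_pos (hst.trans htT)]
      rw [h1.semi (by linarith) hd hz]
      congr 3; ring
    · by_cases hsT : s ≤ T
      · have hp : 0 ≤ T - s := by linarith
        have hq : 0 ≤ t - T := by linarith
        refine ⟨Φ2 (t - T) (Φ1 (T - s) z), h2.maps _ hq (h1.maps _ hp hz), ?_⟩
        simp only [Ch, if_neg htT, if_pos hsT]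
        rw [h2.eq _ hq _ (h1.maps _ hp hz), esm t (t - T) T (by ring)]
      · refine ⟨Φ2 (t - s) z, h2.maps _ hd hz, ?_⟩
        simp only [Ch, if_neg htT, if_neg hsT]
        rw [h2.eq _ hd _ hz, esm t (t - s) s (by ring)]
  · obtain ⟨C, hC⟩ := (isCompact_closedBall (0:E) r).exists_bound_of_continuousOn
      (h2.an.continuousOn.mono (closedBall_subset_ball hr))
    refine ⟨max C 0 * Real.exp T, fun t ht z hz => ?_⟩
    have e1 : 1 ≤ Real.exp t := Real.one_le_exp ht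
    have e2 : 1 ≤ Real.exp T := Real.one_le_exp hT
    have c0 : 0 ≤ max C 0 := le_max_right _ _
    unfold Ch
    split_ifs with htT
    · rw [norm_smul, Complex.norm_real, Real.norm_eq_abs, abs_of_pos (Real.exp_pos _)]
      have a1 := (hC (Φ1 (T - t) z) (by
        rw [mem_closedBall_zero_iff]
        exact (h1.normF (by linarith) (hz.trans_lt hr)).trans hz)).trans (le_max_left C 0)
      calc Real.exp T * ‖g2 (Φ1 (T - t) z)‖ ≤ Real.exp T * max C 0 := by gcongr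
        _ = max C 0 * Real.exp T * 1 := by ring
        _ ≤ _ := by gcongr
    · rw [norm_smul, Complex.norm_real, Real.norm_eq_abs, abs_of_pos (Real.exp_pos _)]
      have a1 := (hC z (by rwa [mem_closedBall_zero_iff])).trans (le_max_left C 0)
      calc Real.exp t * ‖g2 z‖ ≤ Real.exp t * max C 0 := by gcongr
        _ = max C 0 * 1 * Real.exp t := by ring
        _ ≤ _ := by gcongr

noncomputable def tri (G : ℂ → ℂ) (z : E) : E := mk (K (z 0)) (z 1 * G (z 0))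
noncomputable def triF (G : ℂ → ℂ) (t : ℝ) (z : E) : E :=
  mk (V t (z 0)) (z 1 * ((Real.exp (-t) : ℂ) * G (z 0) / G (V t (z 0))))

lemma tri_an {φ ψ : ℂ → ℂ} (hφ : DifferentiableOn ℂ φ (ball 0 1))
    (hψ : DifferentiableOn ℂ ψ (ball 0 1)) :
    AnalyticOnNhd ℂ (fun z : E => mk (φ (z 0)) (z 1 * ψ (z 0))) (ball 0 1) := by
  intro z hz
  have h : ∀ i : Fin 2, AnalyticAt ℂ (fun z : E => z i) z := fun i =>
    (EuclideanSpace.proj i : E →L[ℂ] ℂ).analyticAt z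
  have hm : z 0 ∈ ball (0:ℂ) 1 := by simpa using comp_lt hz 0
  have a1 : AnalyticAt ℂ (fun z : E => φ (z 0)) z :=
    AnalyticAt.comp (g := φ) (f := fun z : E => z 0) (hφ.analyticOnNhd isOpen_ball _ hm) (h 0)
  have a2 : AnalyticAt ℂ (fun z : E => ψ (z 0)) z :=
    AnalyticAt.comp (g := ψ) (f := fun z : E => z 0) (hψ.analyticOnNhd isOpen_ball _ hm) (h 0)
  exact (a1.smul analyticAt_const).add (((h 1).mul a2).smul analyticAt_const)

lemma V_lt {t : ℝ} (ht : 0 ≤ t) {w : ℂ} (hw : ‖w‖ < 1) : ‖V t w‖ < 1 :=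
  (V_norm_le ht hw).trans_lt hw

lemma tri_star (G : ℂ → ℂ) (hG : DifferentiableOn ℂ G (ball 0 1)) (h0 : G 0 = 1)
    (hne : ∀ w, ‖w‖ < 1 → G w ≠ 0)
    (hin : ∀ t, 0 ≤ t → ∀ w, ‖w‖ < 1 →
      (1 - ‖w‖ ^ 2) * (Real.exp (-t) ^ 2 * ‖G w‖ ^ 2) ≤ (1 - ‖V t w‖ ^ 2) * ‖G (V t w)‖ ^ 2) :
    Star (tri G) (triF G) := by
  refine ⟨tri_an K_diff hG, fun x hx y hy hxy => ?_, ext2 (by simp [tri, K]) (by simp [tri]), ?_,
    fun t ht => ?_, fun t ht z hz => ?_, fun t ht z hz => ?_⟩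
  · have a0 := congrArg (fun u : E => u 0) hxy
    have a1 := congrArg (fun u : E => u 1) hxy
    simp only [tri, mk0, mk1] at a0 a1
    have a2 := K_inj (comp_lt hx 0) (comp_lt hy 0) a0
    rw [a2] at a1
    exact ext2 a2 (mul_right_cancel₀ (hne _ (comp_lt hy 0)) a1)
  · have h : ∀ i : Fin 2, HasFDerivAt (fun z : E => z i) (EuclideanSpace.proj i : E →L[ℂ] ℂ) 0 :=
      fun i => (EuclideanSpace.proj i : E →L[ℂ] ℂ).hasFDerivAt
    have hG' := (hG.differentiableAt (ball_mem_nhds _ one_pos)).hasDerivAt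
    have a0 := (HasDerivAt.comp_hasFDerivAt_of_eq (0:E) K_deriv (h 0) (by simp)).smul_const e0
    have a1 := ((h 1).mul
      (HasDerivAt.comp_hasFDerivAt_of_eq (0:E) hG' (h 0) (by simp))).smul_const e1
    refine HasFDerivAt.congr_fderiv (f := tri G) (a0.add a1) ?_
    ext z i
    fin_cases i <;> simp [e0, e1, h0]
  · refine tri_an (ψ := fun w => (Real.exp (-t) : ℂ) * G w / G (V t w)) (V_diff ht) ?_
    refine (hG.const_mul _).div (hG.comp (V_diff ht) (fun w hw => ?_)) (fun w hw => hne _ ?_)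
    · simpa using V_lt ht (by simpa using hw)
    · exact V_lt ht (by simpa using hw)
  · rw [mem_ball_zero_iff]
    apply lt_of_pow_lt_pow_left₀ 2 zero_le_one
    have hz2 : ‖z‖ ^ 2 < 1 := by
      have : ‖z‖ < 1 := by simpa using hz
      nlinarith [norm_nonneg z]
    rw [nsq] at hz2
    rw [nsq, triF, mk0, mk1, norm_mul, norm_div, norm_mul, Complex.norm_real, Real.norm_eq_abs,
      abs_of_pos (Real.exp_pos _), mul_pow, div_pow, mul_pow]
    have a1 := hin t ht _ (comp_lt hz 0)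
    have a2 := norm_pos_iff.2 (hne _ (V_lt ht (comp_lt hz 0)))
    have a3 := norm_pos_iff.2 (hne _ (comp_lt hz 0))
    have a4 := Real.exp_pos (-t)
    have a5 : 0 < Real.exp (-t) ^ 2 * ‖G (z 0)‖ ^ 2 := by positivity
    rw [one_pow, ← lt_sub_iff_add_lt', ← mul_div_assoc, div_lt_iff₀ (by positivity)]
    refine lt_of_lt_of_le ?_ a1
    gcongr
    linarith
  · refine ext2 ?_ ?_
    · simp only [tri, triF, mk0, PiLp.smul_apply, smul_eq_mul]
      exact K_V ht (comp_lt hz 0)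
    · simp only [tri, triF, mk0, mk1, PiLp.smul_apply, smul_eq_mul]
      have := hne _ (V_lt ht (comp_lt hz 0))
      field_simp

lemma star_one : Star (tri fun _ => 1) (triF fun _ => 1) := by
  refine tri_star _ (differentiableOn_const _) rfl (fun _ _ => one_ne_zero) (fun t ht w hw => ?_)
  have a1 := V_norm_le ht hw
  have a2 : Real.exp (-t) ≤ 1 := Real.exp_le_one_iff.2 (by linarith)
  have a3 := Real.exp_pos (-t)
  have a4 : Real.exp (-t) ^ 2 ≤ 1 := by nlinarith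
  have a5 : ‖V t w‖ ^ 2 ≤ ‖w‖ ^ 2 := by gcongr
  have a6 : ‖w‖ ^ 2 ≤ 1 := by nlinarith [norm_nonneg w]
  simp only [norm_one, one_pow, mul_one]
  nlinarith

end Pool.Agent.H.MP_36a5e2_an
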