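import Pool.Agent.H.MP_36a5e2_an.A

set_option autoImplicit false

open MeasureTheory Set Filter Topology Metric
open Pool.Agent.H.MP_1fc8c4_an

namespace Pool.Agent.H.MP_36a5e2_an

noncomputable def GG (w : ℂ) : ℂ := Complex.exp (Complex.log ((1 + w) / (1 - w)) / 2) / (1 - w) ^ 2

lemma Q_slit {w : ℂ} (hw : ‖w‖ < 1) : (1 + w) / (1 - w) ∈ Complex.slitPlane :=
  Or.inl (re_cayley hw)

lemma GG_diff : DifferentiableOn ℂ GG (ball 0 1) := by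
  have h1 : DifferentiableOn ℂ (fun w : ℂ => (1 + w) / (1 - w)) (ball 0 1) :=
    ((differentiableOn_const _).add differentiableOn_id).div
      ((differentiableOn_const _).sub differentiableOn_id)
      (fun w hw => one_sub_ne (by simpa using hw))
  exact ((h1.clog (fun w hw => Q_slit (by simpa using hw))).div_const 2).cexp.div
    (((differentiableOn_const _).sub differentiableOn_id).pow 2)
    (fun w hw => pow_ne_zero 2 (one_sub_ne (by simpa using hw)))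

lemma GG_zero : GG 0 = 1 := by simp [GG]

lemma GG_ne {w : ℂ} (hw : ‖w‖ < 1) : GG w ≠ 0 :=
  div_ne_zero (Complex.exp_ne_zero _) (pow_ne_zero 2 (one_sub_ne hw))

lemma GG_sq {w : ℂ} (hw : ‖w‖ < 1) : GG w ^ 2 = (1 + w) / (1 - w) / (1 - w) ^ 4 := by
  unfold GG
  rw [div_pow, ← Complex.exp_nat_mul]
  have : ((2:ℕ):ℂ) * (Complex.log ((1 + w) / (1 - w)) / 2) = Complex.log ((1 + w) / (1 - w)) := by
    push_cast; ring
  rw [this, Complex.exp_log (Complex.slitPlane_ne_zero (Q_slit hw)), ← pow_mul]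

lemma one_sub_sq {w : ℂ} (hw : ‖w‖ < 1) :
    1 - ‖w‖ ^ 2 = ((1 + w) / (1 - w)).re * ‖1 - w‖ ^ 2 := by
  have h2 : Complex.normSq (1 - w) ≠ 0 := (Complex.normSq_pos.2 (one_sub_ne hw)).ne'
  rw [Complex.div_re, ← add_div, Complex.sq_norm, Complex.sq_norm, div_mul_cancel₀ _ h2,
    Complex.normSq_apply]
  simp; ring

lemma lhs_eq {w : ℂ} (hw : ‖w‖ < 1) :
    (1 - ‖w‖ ^ 2) * ‖GG w‖ ^ 2 =
      ((1 + w) / (1 - w)).re * ‖(1 + w) / (1 - w)‖ / ‖1 - w‖ ^ 2 := by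
  have h := norm_pos_iff.2 (one_sub_ne hw)
  rw [one_sub_sq hw, ← norm_pow (GG w), GG_sq hw, norm_div, norm_pow]
  field_simp

lemma cay_V {t : ℝ} (ht : 0 ≤ t) {w : ℂ} (hw : ‖w‖ < 1) :
    (1 + V t w) / (1 - V t w) = ss t w := by
  have h2 := ss_add_ne ht hw
  unfold V
  set s := ss t w
  have e2 : 1 + (s - 1) / (s + 1) = 2 * s / (s + 1) := by field_simp; ring
  have e3 : 1 - (s - 1) / (s + 1) = 2 / (s + 1) := by field_simp; ring
  rw [e2, e3]; field_simp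

lemma re_norm_sq (s : ℂ) :
    (s.re * ‖s‖) ^ 2 * 4 = (‖s ^ 2‖ + (s ^ 2).re) ^ 2 + (s ^ 2).im ^ 2 := by
  rw [mul_pow, norm_pow, Complex.sq_norm, Complex.normSq_apply]
  simp [pow_two]; ring

lemma mono_aux (s q : ℂ) (τ : ℝ) (h0 : 0 < τ) (h1 : τ ≤ 1) (hs : 0 < s.re) (hq : 0 < q.re)
    (h : s ^ 2 = 1 - (τ:ℂ) + (τ:ℂ) * q ^ 2) : τ * (q.re * ‖q‖) ≤ s.re * ‖s‖ := by
  apply le_of_pow_le_pow_left₀ two_ne_zero (by positivity)
  have a1 := re_norm_sq s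
  have a2 := re_norm_sq q
  have a3 : (s ^ 2).im = τ * (q ^ 2).im := by rw [h]; simp
  have a4 : (s ^ 2).re = 1 - τ + τ * (q ^ 2).re := by rw [h]; simp
  have a5 : τ * ‖q ^ 2‖ ≤ ‖s ^ 2‖ + (1 - τ) := by
    have b1 : (τ:ℂ) * q ^ 2 = s ^ 2 - ((1 - τ : ℝ) : ℂ) := by rw [h]; push_cast; ring
    have b2 := norm_sub_le (s ^ 2) ((1 - τ : ℝ) : ℂ)
    rw [← b1, norm_mul, Complex.norm_real, Complex.norm_real, Real.norm_eq_abs, Real.norm_eq_abs,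
      abs_of_pos h0, abs_of_nonneg (by linarith)] at b2
    exact b2
  have a6 : 0 ≤ ‖q ^ 2‖ + (q ^ 2).re := by
    have := Complex.abs_re_le_norm (q ^ 2)
    have := neg_abs_le (q ^ 2).re
    linarith
  have a7 : τ * (‖q ^ 2‖ + (q ^ 2).re) ≤ ‖s ^ 2‖ + (s ^ 2).re := by rw [a4]; nlinarith
  have a8 : (τ * (‖q ^ 2‖ + (q ^ 2).re)) ^ 2 ≤ (‖s ^ 2‖ + (s ^ 2).re) ^ 2 := by gcongr
  rw [a3] at a1
  have a9 : (τ * (q.re * ‖q‖)) ^ 2 * 4 =
      (τ * (‖q ^ 2‖ + (q ^ 2).re)) ^ 2 + (τ * (q ^ 2).im) ^ 2 := by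
    linear_combination τ ^ 2 * a2
  linarith

lemma den_le {t : ℝ} (ht : 0 ≤ t) {w : ℂ} (hw : ‖w‖ < 1) :
    Real.exp (-t) * ‖1 - V t w‖ ^ 2 ≤ ‖1 - w‖ ^ 2 := by
  have a2 : Real.exp (-t) ≤ 1 := Real.exp_le_one_iff.2 (by linarith)
  rcases eq_or_ne w 0 with rfl | hw0
  · simpa [V_zero] using a2
  have h1 := congrArg norm (K_V ht hw)
  have h2 := norm_pos_iff.2 (one_sub_ne hw)
  have h3 := norm_pos_iff.2 (one_sub_ne (V_lt ht hw))
  have h4 := norm_pos_iff.2 hw0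
  unfold K at h1
  rw [norm_mul, norm_div, norm_div, norm_pow, norm_pow, Complex.norm_real, Real.norm_eq_abs,
    abs_of_pos (Real.exp_pos _), ← mul_div_assoc, div_eq_div_iff (by positivity) (by positivity)]
    at h1
  have h5 := V_norm_le ht hw
  have h6 : ‖V t w‖ * ‖1 - w‖ ^ 2 ≤ ‖w‖ * ‖1 - w‖ ^ 2 := by gcongr
  rw [h1] at h6
  have h7 : ‖w‖ * (Real.exp (-t) * ‖1 - V t w‖ ^ 2) ≤ ‖w‖ * ‖1 - w‖ ^ 2 := by linarith
  exact le_of_mul_le_mul_left h7 h4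

lemma star_G : Star (tri GG) (triF GG) := by
  refine tri_star _ GG_diff GG_zero (fun _ hw => GG_ne hw) (fun t ht w hw => ?_)
  have a2 : Real.exp (-t) ≤ 1 := Real.exp_le_one_iff.2 (by linarith)
  have a3 := Real.exp_pos (-t)
  rw [lhs_eq (V_lt ht hw), cay_V ht hw, mul_left_comm, lhs_eq hw]
  have b1 := mono_aux (ss t w) ((1 + w) / (1 - w)) (Real.exp (-t)) a3 a2 (ss_re ht hw)
    (re_cayley hw) (by rw [ss_sq ht hw]; rfl)
  have b2 := den_le ht hw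
  have h2 := norm_pos_iff.2 (one_sub_ne hw)
  have h3 := norm_pos_iff.2 (one_sub_ne (V_lt ht hw))
  have b3 := re_cayley hw
  have b4 : 0 ≤ ((1 + w) / (1 - w)).re * ‖(1 + w) / (1 - w)‖ := by positivity
  rw [← mul_div_assoc, div_le_div_iff₀ (by positivity) (by positivity)]
  calc _ = (Real.exp (-t) * (((1 + w) / (1 - w)).re * ‖(1 + w) / (1 - w)‖)) *
        (Real.exp (-t) * ‖1 - V t w‖ ^ 2) := by ring
    _ ≤ _ := by
      apply mul_le_mul b1 b2 (by positivity)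
      have := ss_re ht hw
      positivity

noncomputable def Rot (c s : ℝ) : E →L[ℂ] E :=
  ((c:ℂ) • (EuclideanSpace.proj 0 : E →L[ℂ] ℂ) + (s:ℂ) • (EuclideanSpace.proj 1 : E →L[ℂ] ℂ)).smulRight e0
  + ((c:ℂ) • (EuclideanSpace.proj 1 : E →L[ℂ] ℂ) - (s:ℂ) • (EuclideanSpace.proj 0 : E →L[ℂ] ℂ)).smulRight e1

lemma Rot0 (c s : ℝ) (z : E) : Rot c s z 0 = c * z 0 + s * z 1 := by simp [Rot, e0, e1]
lemma Rot1 (c s : ℝ) (z : E) : Rot c s z 1 = c * z 1 - s * z 0 := by simp [Rot, e0, e1]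

lemma Rot_inv {c s : ℝ} (h : c ^ 2 + s ^ 2 = 1) (z : E) : Rot c s (Rot c (-s) z) = z := by
  have h' : (c:ℂ) ^ 2 + (s:ℂ) ^ 2 = 1 := by exact_mod_cast h
  refine ext2 ?_ ?_
  · simp only [Rot0, Rot1]; push_cast; linear_combination (z 0) * h'
  · simp only [Rot0, Rot1]; push_cast; linear_combination (z 1) * h'

lemma Rot_norm {c s : ℝ} (h : c ^ 2 + s ^ 2 = 1) (z : E) : ‖Rot c s z‖ = ‖z‖ := by
  rw [← sq_eq_sq₀ (norm_nonneg _) (norm_nonneg _), nsq, nsq, Rot0, Rot1]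
  simp only [Complex.sq_norm, Complex.normSq_apply]
  simp
  linear_combination ((z 0).re ^ 2 + (z 0).im ^ 2 + (z 1).re ^ 2 + (z 1).im ^ 2) * h

lemma Star.rot {g : E → E} {Φ : ℝ → E → E} (hS : Star g Φ) {c s : ℝ} (h : c ^ 2 + s ^ 2 = 1) :
    Star (fun z => Rot c (-s) (g (Rot c s z))) (fun t z => Rot c (-s) (Φ t (Rot c s z))) := by
  have h' : c ^ 2 + (-s) ^ 2 = 1 := by rw [neg_sq]; exact h
  refine hS.conj _ _ (Rot_inv h) (fun z => ?_) (Rot_norm h) (Rot_norm h')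
  have := Rot_inv h' z
  rwa [neg_neg] at this

/-- third order jet at the origin -/
def J (f : ℂ → ℂ) (a0 a1 a2 a3 : ℂ) : Prop :=
  AnalyticAt ℂ f 0 ∧ iteratedDeriv 0 f 0 = a0 ∧ iteratedDeriv 1 f 0 = a1 ∧
    iteratedDeriv 2 f 0 = 2 * a2 ∧ iteratedDeriv 3 f 0 = 6 * a3

namespace J
variable {f g : ℂ → ℂ} {a0 a1 a2 a3 b0 b1 b2 b3 : ℂ}

lemma ex (hf : AnalyticAt ℂ f 0) : ∃ a1 a2 a3, J f (f 0) a1 a2 a3 :=
  ⟨_, iteratedDeriv 2 f 0 / 2, iteratedDeriv 3 f 0 / 6, hf, by simp, rfl, by ring, by ring⟩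

lemma val (h : J f a0 a1 a2 a3) : f 0 = a0 := by simpa using h.2.1

lemma coef (h : J f a0 a1 a2 a3) (e0 : a0 = b0) (e1 : a1 = b1) (e2 : a2 = b2) (e3 : a3 = b3) :
    J f b0 b1 b2 b3 := by subst e0 e1 e2 e3; exact h

lemma congr (h : J f a0 a1 a2 a3) (e : f =ᶠ[𝓝 0] g) : J g a0 a1 a2 a3 := by
  obtain ⟨h0, h1, h2, h3, h4⟩ := h
  refine ⟨h0.congr e, ?_, ?_, ?_, ?_⟩ <;> rw [← e.iteratedDeriv_eq] <;> assumption

lemma uniq (h : J f a0 a1 a2 a3) (h' : J f b0 b1 b2 b3) :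
    a0 = b0 ∧ a1 = b1 ∧ a2 = b2 ∧ a3 = b3 := by
  obtain ⟨-, h1, h2, h3, h4⟩ := h
  obtain ⟨-, k1, k2, k3, k4⟩ := h'
  refine ⟨h1.symm.trans k1, h2.symm.trans k2, ?_, ?_⟩
  · linear_combination (k3 - h3) / 2
  · linear_combination (k4 - h4) / 6

lemma const (c : ℂ) : J (fun _ => c) c 0 0 0 :=
  ⟨analyticAt_const, by simp, by simp, by simp [iteratedDeriv_const], by simp [iteratedDeriv_const]⟩

lemma id : J (fun z => z) 0 1 0 0 :=
  ⟨analyticAt_id, by simp, by simp, by simp [iteratedDeriv_fun_id_zero],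
    by simp [iteratedDeriv_fun_id_zero]⟩

lemma add (h : J f a0 a1 a2 a3) (h' : J g b0 b1 b2 b3) :
    J (fun z => f z + g z) (a0 + b0) (a1 + b1) (a2 + b2) (a3 + b3) := by
  obtain ⟨h0, h1, h2, h3, h4⟩ := h
  obtain ⟨k0, k1, k2, k3, k4⟩ := h'
  refine ⟨h0.add k0, ?_, ?_, ?_, ?_⟩ <;>
    rw [iteratedDeriv_fun_add h0.contDiffAt k0.contDiffAt]
  · rw [h1, k1]
  · rw [h2, k2]
  · rw [h3, k3]; ring
  · rw [h4, k4]; ring

lemma mul (h : J f a0 a1 a2 a3) (h' : J g b0 b1 b2 b3) :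
    J (fun z => f z * g z) (a0 * b0) (a0 * b1 + a1 * b0) (a0 * b2 + a1 * b1 + a2 * b0)
      (a0 * b3 + a1 * b2 + a2 * b1 + a3 * b0) := by
  obtain ⟨h0, h1, h2, h3, h4⟩ := h
  obtain ⟨k0, k1, k2, k3, k4⟩ := h'
  refine ⟨h0.mul k0, ?_, ?_, ?_, ?_⟩ <;>
    rw [iteratedDeriv_fun_mul h0.contDiffAt k0.contDiffAt] <;>
    simp only [Finset.sum_range_succ, Finset.sum_range_zero, Nat.reduceSub, Nat.sub_zero,
      h1, h2, h3, h4, k1, k2, k3, k4, Nat.choose] <;> push_cast <;> ring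

lemma cmul (c : ℂ) (h : J f a0 a1 a2 a3) :
    J (fun z => c * f z) (c * a0) (c * a1) (c * a2) (c * a3) :=
  ((const c).mul h).coef rfl (by ring) (by ring) (by ring)

lemma sub (h : J f a0 a1 a2 a3) (h' : J g b0 b1 b2 b3) :
    J (fun z => f z - g z) (a0 - b0) (a1 - b1) (a2 - b2) (a3 - b3) :=
  ((h.add (h'.cmul (-1))).congr (Eventually.of_forall fun z => by ring)).coef
    (by ring) (by ring) (by ring) (by ring)

lemma inv (h : J f 1 a1 a2 a3) :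
    J (fun z => (f z)⁻¹) 1 (-a1) (a1 ^ 2 - a2) (-a1 ^ 3 + 2 * a1 * a2 - a3) := by
  have h0 : f 0 = 1 := h.val
  have h1 : AnalyticAt ℂ (fun z => (f z)⁻¹) 0 := h.1.inv (by rw [h0]; exact one_ne_zero)
  obtain ⟨c1, c2, c3, h2⟩ := ex h1
  simp only [h0, inv_one] at h2
  have h3 : (fun z => f z * (f z)⁻¹) =ᶠ[𝓝 0] fun _ => 1 := by
    filter_upwards [h.1.continuousAt.eventually_ne (y := 0) (by rw [h0]; exact one_ne_zero)]
      with z hz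
    exact mul_inv_cancel₀ hz
  obtain ⟨-, e1, e2, e3⟩ := ((h.mul h2).congr h3).uniq (const 1)
  have f1 : c1 = -a1 := by linear_combination e1
  have f2 : c2 = a1 ^ 2 - a2 := by rw [f1] at e2; linear_combination e2
  have f3 : c3 = -a1 ^ 3 + 2 * a1 * a2 - a3 := by rw [f1, f2] at e3; linear_combination e3
  exact h2.coef rfl f1 f2 f3

lemma small (h : J f 0 a1 a2 a3) : ∀ᶠ z in 𝓝 (0:ℂ), ‖f z‖ < 1 := by
  have h1 := h.1.continuousAt.norm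
  exact h1.eventually_lt continuousAt_const (by simp [h.val])

lemma comp_an {φ : ℂ → ℂ} (hφ : DifferentiableOn ℂ φ (ball 0 1)) (h : J f 0 a1 a2 a3) :
    AnalyticAt ℂ (fun z => φ (f z)) 0 :=
  AnalyticAt.comp (g := φ) (f := f)
    (hφ.analyticOnNhd isOpen_ball _ (by rw [h.val]; exact mem_ball_self one_pos)) h.1

lemma K (h : J f 0 a1 a2 a3) :
    J (fun z => K (f z)) 0 a1 (a2 + 2 * a1 ^ 2) (a3 + 4 * a1 * a2 + 3 * a1 ^ 3) := by
  have h1 := ((const 1).sub h).coef (sub_zero 1) (zero_sub _) (zero_sub _) (zero_sub _)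
  have h2 := h1.inv
  refine ((h.mul (h2.mul h2)).congr (Eventually.of_forall fun z => ?_)).coef
    (by ring) (by ring) (by ring) (by ring)
  simp only [MP_1fc8c4_an.K]
  rw [div_eq_mul_inv, pow_two, mul_inv]

lemma G (h : J f 0 a1 a2 a3) :
    J (fun z => GG (f z)) 1 (3 * a1) (3 * a2 + 11 / 2 * a1 ^ 2)
      (3 * a3 + 11 * a1 * a2 + 17 / 2 * a1 ^ 3) := by
  have h1 := ((const 1).sub h).coef (sub_zero 1) (zero_sub _) (zero_sub _) (zero_sub _)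
  have h2 := h1.inv
  have h3 := h2.mul h2
  have h4 := (((const 1).add h).mul h2).mul (h3.mul h3)
  obtain ⟨c1, c2, c3, h5⟩ := ex (h.comp_an GG_diff)
  simp only [h.val, GG_zero] at h5
  have h6 : (fun z => GG (f z) * GG (f z)) =ᶠ[𝓝 0] fun z => (1 + f z) * (1 - f z)⁻¹ *
      ((1 - f z)⁻¹ * (1 - f z)⁻¹ * ((1 - f z)⁻¹ * (1 - f z)⁻¹)) := by
    filter_upwards [h.small] with z hz
    rw [← pow_two, GG_sq hz]
    have := one_sub_ne hz
    field_simp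
  obtain ⟨-, e1, e2, e3⟩ := ((h5.mul h5).congr h6).uniq h4
  have f1 : c1 = 3 * a1 := by linear_combination e1 / 2
  have f2 : c2 = 3 * a2 + 11 / 2 * a1 ^ 2 := by rw [f1] at e2; linear_combination e2 / 2
  have f3 : c3 = 3 * a3 + 11 * a1 * a2 + 17 / 2 * a1 ^ 3 := by
    rw [f1, f2] at e3; linear_combination e3 / 2
  exact h5.coef rfl f1 f2 f3

lemma V (h : J f 0 a1 0 0) {t : ℝ} (ht : 0 ≤ t) (τ : ℂ) (hτ : (Real.exp (-t) : ℂ) = τ) :
    J (fun z => V t (f z)) 0 (τ * a1) (2 * τ * (1 - τ) * a1 ^ 2)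
      ((3 * τ - 8 * τ ^ 2 + 5 * τ ^ 3) * a1 ^ 3) := by
  obtain ⟨c1, c2, c3, h5⟩ := ex (h.comp_an (V_diff ht))
  simp only [h.val, V_zero] at h5
  have h6 : (fun z => MP_1fc8c4_an.K (MP_1fc8c4_an.V t (f z))) =ᶠ[𝓝 0]
      fun z => τ * MP_1fc8c4_an.K (f z) := by
    filter_upwards [h.small] with z hz
    rw [K_V ht hz, hτ]
  obtain ⟨-, e1, e2, e3⟩ := (h5.K.congr h6).uniq (h.K.cmul τ)
  have f2 : c2 = 2 * τ * (1 - τ) * a1 ^ 2 := by rw [e1] at e2; linear_combination e2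
  have f3 : c3 = (3 * τ - 8 * τ ^ 2 + 5 * τ ^ 3) * a1 ^ 3 := by
    rw [e1, f2] at e3; linear_combination e3
  exact h5.coef rfl e1 f2 f3

end J

end Pool.Agent.H.MP_36a5e2_an
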