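import Pool.Agent.H.MP_36a5e2_an.B

set_option autoImplicit false

open MeasureTheory Set Filter Topology Metric
open Pool.Agent.H.MP_1fc8c4_an

namespace Pool.Agent.H.MP_36a5e2_an

noncomputable def g2 (c s : ℝ) (z : E) : E := Rot c (-s) (tri (fun _ => 1) (Rot c s z))
noncomputable def P1 (c s : ℝ) (t : ℝ) (z : E) : E := Rot c (-s) (triF GG t (Rot c s z))

lemma jet (c s c' s' T : ℝ) (hT : 0 ≤ T) (τ : ℂ) (hτ : (Real.exp (-T) : ℂ) = τ) :
    ∃ a0 a1 a2 v1 v2 v3 y1 y2 y3 p1 p2 p3 q3 : ℂ,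
      v1 = τ * c ∧ v2 = 2 * τ * (1 - τ) * c ^ 2 ∧ v3 = (3 * τ - 8 * τ ^ 2 + 5 * τ ^ 3) * c ^ 3 ∧
      y1 = -s * τ ∧ y2 = -s * τ * (3 * c - 3 * v1) ∧
      y3 = -s * τ * (11 / 2 * c ^ 2 - 9 * c * v1 + (7 / 2 * v1 ^ 2 - 3 * v2)) ∧
      p1 = c' * (c * v1 - s * y1) + s' * (c * y1 + s * v1) ∧
      p2 = c' * (c * v2 - s * y2) + s' * (c * y2 + s * v2) ∧
      p3 = c' * (c * v3 - s * y3) + s' * (c * y3 + s * v3) ∧
      q3 = c' * (c * y3 + s * v3) - s' * (c * v3 - s * y3) ∧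
      J (fun ζ => g2 c' s' (P1 c s T (ζ • e0)) 0) a0 a1 a2
        (c' * (p3 + 4 * p1 * p2 + 3 * p1 ^ 3) - s' * q3) := by
  have hw : J (fun ζ => (c:ℂ) * ζ) 0 c 0 0 :=
    (J.id.cmul c).coef (by ring) (by ring) (by ring) (by ring)
  have hV := hw.V hT τ hτ
  have hY := (J.id.cmul (-(s:ℂ))).mul ((hw.G.cmul τ).mul hV.G.inv)
  have hz1 := (hV.cmul c).sub (hY.cmul s)
  have hz2 := (hY.cmul c).add (hV.cmul s)
  have hp := ((hz1.cmul c').add (hz2.cmul s')).coef (b0 := 0) (by ring) rfl rfl rfl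
  have hq := (hz2.cmul c').sub (hz1.cmul s')
  have hf := (hp.K.cmul c').sub (hq.cmul s')
  refine ⟨_, _, _, _, _, _, _, _, _, _, _, _, _, rfl, rfl, rfl, rfl, rfl, rfl, rfl, rfl, rfl, rfl,
    (hf.congr (Eventually.of_forall fun ζ => ?_)).coef rfl rfl rfl (by ring)⟩
  have r0 : Rot c s (ζ • e0) 0 = c * ζ := by rw [Rot0]; simp [e0, mul_comm]
  have r1 : Rot c s (ζ • e0) 1 = -s * ζ := by rw [Rot1]; simp [e0, mul_comm]
  simp only [g2, P1, tri, triF, Rot0 c' , Rot1 c', Rot0 c (-s), Rot1 c (-s), mk0, mk1, r0, r1, hτ,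
    div_eq_mul_inv]
  push_cast
  ring_nf

lemma slice (f : E → E) (hf : AnalyticOnNhd ℂ f (ball 0 1)) :
    EuclideanSpace.proj (0 : Fin 2)
      (iteratedFDeriv ℂ 3 f 0 (fun _ => EuclideanSpace.single (0 : Fin 2) (1 : ℂ))) =
    iteratedDeriv 3 (fun ζ : ℂ => f (ζ • e0) 0) 0 := by
  set L : ℂ →L[ℂ] E := (ContinuousLinearMap.id ℂ ℂ).smulRight e0 with hL
  have hc : ContDiffOn ℂ 3 f (ball 0 1) := hf.contDiffOn_of_completeSpace
  have ho : IsOpen (L ⁻¹' ball (0:E) 1) := isOpen_ball.preimage L.continuous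
  have hm : L 0 ∈ ball (0:E) 1 := by rw [map_zero]; exact z0
  have h1 := L.iteratedFDerivWithin_comp_right hc isOpen_ball.uniqueDiffOn ho.uniqueDiffOn hm
    (i := 3) le_rfl
  rw [iteratedFDerivWithin_of_isOpen 3 ho hm, iteratedFDerivWithin_of_isOpen 3 isOpen_ball hm,
    map_zero] at h1
  have h2 : ContDiffAt ℂ 3 (f ∘ L) 0 :=
    (AnalyticAt.comp (hf _ hm) (L.analyticAt 0)).contDiffAt
  have h3 := (EuclideanSpace.proj (0 : Fin 2) : E →L[ℂ] ℂ).iteratedFDeriv_comp_left h2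
    (i := 3) le_rfl
  have h4 : (fun ζ : ℂ => f (ζ • e0) 0) = (EuclideanSpace.proj (0 : Fin 2) : E →L[ℂ] ℂ) ∘ (f ∘ L) := by
    funext ζ; simp [hL]
  rw [h4, iteratedDeriv_eq_iteratedFDeriv, h3, h1]
  simp [hL, e0]

noncomputable def T0 : ℝ := Real.log (12 / 11)

lemma T0_pos : 0 ≤ T0 := Real.log_nonneg (by norm_num)

noncomputable def FF : ℝ → E → E :=
  Ch (g2 (3999999 / 4000001) (4000 / 4000001)) (P1 (2499 / 2501) (-100 / 2501)) T0

lemma S1 : ∃ g, Star g (P1 (2499 / 2501) (-100 / 2501)) := ⟨_, star_G.rot (by norm_num)⟩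
lemma S2 : ∃ Φ, Star (g2 (3999999 / 4000001) (4000 / 4000001)) Φ := ⟨_, star_one.rot (by norm_num)⟩

lemma big : (3:ℝ) < ‖EuclideanSpace.proj (0 : Fin 2)
      (iteratedFDeriv ℂ 3 (FF 0) 0 (fun _ => EuclideanSpace.single (0 : Fin 2) (1 : ℂ)))‖ / 6 := by
  have e : FF 0 = fun z => (Real.exp T0 : ℂ) •
      g2 (3999999 / 4000001) (4000 / 4000001) (P1 (2499 / 2501) (-100 / 2501) T0 z) := by
    funext z; simp only [FF, Ch, if_pos T0_pos, sub_zero]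
  have han : AnalyticOnNhd ℂ (FF 0) (ball 0 1) := by
    rw [e]
    intro z hz
    obtain ⟨g, s1⟩ := S1
    obtain ⟨Φ, s2⟩ := S2
    have a1 := AnalyticAt.comp (s2.an _ (s1.maps _ T0_pos hz)) (s1.anF _ T0_pos z hz)
    exact (analyticAt_const (v := (Real.exp T0 : ℂ))).smul a1
  have h1 : Real.exp T0 = 12 / 11 := Real.exp_log (by norm_num)
  have h2 : (Real.exp (-T0) : ℂ) = 11 / 12 := by
    rw [Real.exp_neg, h1]; push_cast; norm_num
  obtain ⟨a0, a1, a2, v1, v2, v3, y1, y2, y3, p1, p2, p3, q3, k1, k2, k3, k4, k5, k6, k7, k8, k9,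
    k10, hJ⟩ := jet (2499 / 2501) (-100 / 2501) (3999999 / 4000001) (4000 / 4000001) T0 T0_pos _ h2
  have h3 := (hJ.cmul (12 / 11)).2.2.2.2
  rw [slice _ han, e]
  simp only [PiLp.smul_apply, smul_eq_mul, h1]
  push_cast at *
  rw [h3]
  have h4 : (12 / 11 : ℂ) * (3999999 / 4000001 * (p3 + 4 * p1 * p2 + 3 * p1 ^ 3) -
      4000 / 4000001 * q3) = ((21267236222094239085651872753094421 / 7089077681073250401915066939691682 : ℝ) : ℂ) := by
    rw [k10, k9, k8, k7, k6, k5, k4, k3, k2, k1]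
    push_cast
    norm_num
  rw [h4, norm_mul, Complex.norm_real]
  norm_num

end Pool.Agent.H.MP_36a5e2_an
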